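import Pool.Agent.H62.UN.Targets

set_option autoImplicit false

namespace Pool.Agent.H60.UNT

open Polynomial Pool.Agent.H17.UN Pool.Agent.H62.UN

section

variable {E : Type} [Field E] {o : E → ℤ} (h : IsVal o)

include h

theorem v_one : o 1 = 0 := by
  have := h.mul 1 1 one_ne_zero one_ne_zero
  rw [mul_one] at this
  omega

theorem v_mul' (a b : E) (ha : 0 ≤ o a) (hb : 0 ≤ o b) : 0 ≤ o (a * b) := by
  by_cases ha0 : a = 0
  · rw [ha0, zero_mul, h.zero]
  by_cases hb0 : b = 0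
  · rw [hb0, mul_zero, h.zero]
  rw [h.mul a b ha0 hb0]; omega

theorem v_add' (a b : E) (ha : 0 ≤ o a) (hb : 0 ≤ o b) : 0 ≤ o (a + b) := by
  by_cases ha0 : a = 0
  · rw [ha0, zero_add]; exact hb
  by_cases hb0 : b = 0
  · rw [hb0, add_zero]; exact ha
  by_cases hab : a + b = 0
  · rw [hab, h.zero]
  have := h.add a b ha0 hb0 hab
  exact le_trans (le_min ha hb) this

theorem v_pow (a : E) (ha : a ≠ 0) (n : ℕ) : o (a ^ n) = n * o a := by
  induction n with
  | zero => simp [v_one h]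
  | succ n ih => rw [pow_succ, h.mul _ _ (pow_ne_zero _ ha) ha, ih]; push_cast; ring

theorem v_inv (a : E) (ha : a ≠ 0) : o a⁻¹ = - o a := by
  have := h.mul a a⁻¹ ha (inv_ne_zero ha)
  rw [mul_inv_cancel₀ ha, v_one h] at this
  omega

theorem v_div (a b : E) (ha : a ≠ 0) (hb : b ≠ 0) : o (a / b) = o a - o b := by
  rw [div_eq_mul_inv, h.mul a b⁻¹ ha (inv_ne_zero hb), v_inv h b hb]; ring

theorem v_neg (a : E) : o (-a) = o a := by
  have h1 : o (-1) = 0 := by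
    have := h.mul (-1) (-1) (neg_ne_zero.2 one_ne_zero) (neg_ne_zero.2 one_ne_zero)
    rw [neg_mul_neg, mul_one, v_one h] at this
    omega
  by_cases ha : a = 0
  · rw [ha, neg_zero]
  have := h.mul (-1) a (neg_ne_zero.2 one_ne_zero) ha
  rw [neg_one_mul] at this
  omega

end

/-- The subring of the elements without poles, as a subalgebra. -/
def vsub {k E : Type} [Field k] [Field E] [Algebra k E] {o : E → ℤ} (h : IsVal o)
    (hk : ∀ c : k, 0 ≤ o (algebraMap k E c)) : Subalgebra k E where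
  carrier := {x | 0 ≤ o x}
  mul_mem' := fun {a b} ha hb => v_mul' h a b ha hb
  add_mem' := fun {a b} ha hb => v_add' h a b ha hb
  algebraMap_mem' := hk

theorem pf_SPR : T_SPR := by
  intro k E _ _ _ A A' h1 h2 o ho hc hA'
  obtain ⟨a0, ha0, ha00, hg0⟩ := h1
  obtain ⟨a1, ha1, ha10, hg1⟩ := h2
  let B : Subalgebra k E := vsub ho (fun c => hc.nn _ (A.algebraMap_mem c))
  have hAB : A ⊔ A' ≤ B := sup_le (fun a ha => hc.nn a ha) (fun a ha => hA' a ha)
  have hB : ∀ x ∈ A ⊔ A', 0 ≤ o x := fun x hx => hAB hx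
  have e0 : o a0 = 0 := by
    have h3 : a0⁻¹ ∈ A ⊔ A' := (hg0 _).2 ⟨1, one_mem _, 1, by simp⟩
    have h4 := hB _ h3
    rw [v_inv ho a0 ha00] at h4
    have h5 := hc.nn a0 ha0
    omega
  have e1 : o a1 = 0 := by
    have h3 : a1⁻¹ ∈ A ⊔ A' := by
      rw [sup_comm]; exact (hg1 _).2 ⟨1, one_mem _, 1, by simp⟩
    have h4 := hB _ h3
    rw [v_inv ho a1 ha10] at h4
    have h5 := hA' a1 ha1
    omega
  refine ⟨hA', ?_⟩
  intro x hx0 hx
  obtain ⟨b, hb, c, hcA, hc0, hoc, rfl⟩ := hc.loc x hx0 hx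
  have hb0 : b ≠ 0 := by rintro rfl; simp at hx0
  obtain ⟨b', hb', r, hbr⟩ := (hg1 b).1 (by
    rw [sup_comm]; exact (le_sup_left : A ≤ A ⊔ A') hb)
  obtain ⟨c', hc', m, hcm⟩ := (hg1 c).1 (by
    rw [sup_comm]; exact (le_sup_left : A ≤ A ⊔ A') hcA)
  have hc'0 : c' ≠ 0 := by
    rintro rfl
    rw [zero_div] at hcm
    exact hc0 hcm
  have hp : ∀ n : ℕ, a1 ^ n ≠ 0 := fun n => pow_ne_zero _ ha10
  refine ⟨b' * a1 ^ m, mul_mem hb' (pow_mem ha1 _), c' * a1 ^ r, mul_mem hc' (pow_mem ha1 _),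
    mul_ne_zero hc'0 (hp r), ?_, ?_⟩
  · have h5 : c' = c * a1 ^ m := by rw [hcm]; field_simp
    rw [ho.mul _ _ hc'0 (hp r), h5, ho.mul _ _ hc0 (hp m), v_pow ho a1 ha10, v_pow ho a1 ha10, e1,
      hoc]
    simp
  · rw [hbr, hcm]
    have := hp r
    have := hp m
    field_simp

end Pool.Agent.H60.UNT
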