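import Pool.Agent.H62.UN.Targets
import Pool.Agent.H60.UNT.SPR

set_option autoImplicit false

namespace Pool.Agent.H60.UNT

open Polynomial Pool.Agent.H17.UN Pool.Agent.H62.UN

theorem pf_LVR : T_LVR := by
  intro hNFI hREG hNOE hDVC hCTQ hUNQ k E _ _ _ _ P Q x y z h a ha
  obtain ⟨e, hex, hey, hez⟩ := hNFI k E P Q x y z h
  obtain ⟨hpr, hzn⟩ := hREG k P Q a ha
  obtain ⟨hN, hF⟩ := hNOE k E x y z h.gen
  -- the element `w = x - a`
  let w : cr k x y z := e (xC P Q - algebraMap k (CR P Q) a)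
  have hw : (w : E) = x - algebraMap k E a := by
    simp only [w, map_sub, AlgEquiv.commutes, AddSubgroupClass.coe_sub, hex]
    rfl
  let q : Ideal (cr k x y z) := (Ideal.span {xC P Q - algebraMap k (CR P Q) a}).comap e.symm
  have hq : q.IsPrime := Ideal.IsPrime.comap _
  have hmem : ∀ b, b ∈ q ↔ ∃ c, b = w * c := by
    intro b
    simp only [q, Ideal.mem_comap, Ideal.mem_span_singleton']
    constructor
    · rintro ⟨c, hc⟩
      refine ⟨e c, ?_⟩
      have := congrArg e hc
      simp only [map_mul] at this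
      rw [mul_comm]
      simpa [w] using this.symm
    · rintro ⟨c, rfl⟩
      refine ⟨e.symm c, ?_⟩
      simp [w, mul_comm]
  have hx0 : x - algebraMap k E a ≠ 0 := by
    intro h0
    have h1 : Transcendental k x := by
      have := h.ind.transcendental (0 : Fin 2)
      simpa using this
    exact h1 (by rw [sub_eq_zero.1 h0]; exact isAlgebraic_algebraMap a)
  have hw0 : w ≠ 0 := by
    intro h0
    rw [h0] at hw
    exact hx0 (by rw [← hw]; rfl)
  obtain ⟨o, ho, hc, h1, h2⟩ := hDVC k E (cr k x y z) hN hF q w 1 hq ((hmem w).2 ⟨1, by simp⟩) hw0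
    (fun h => hq.ne_top ((Ideal.eq_top_iff_one _).2 h)) (fun b hb => by
      obtain ⟨c, hc⟩ := (hmem b).1 hb
      exact ⟨c, by rw [one_mul, hc]⟩)
  rw [hw] at h1
  have hzc : z ∈ cr k x y z := Algebra.subset_adjoin (by simp)
  refine ⟨o, ho, hc, h1, ?_, ?_⟩
  · have h3 := hc.nn z hzc
    by_contra h4
    have h5 : 0 < o z := by omega
    have h6 := h2 ⟨z, hzc⟩ h5
    apply hzn
    have h7 : e (zC P Q) = ⟨z, hzc⟩ := Subtype.ext hez
    rw [← h7] at h6
    simpa [q] using h6
  · intro o' ho' hc' h3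
    apply hUNQ k E (cr k x y z) o' o ho' ho hc' hc
    intro b hb hob
    obtain ⟨c, hc2⟩ := (hmem ⟨b, hb⟩).1 (h2 ⟨b, hb⟩ hob)
    have hb0 : b ≠ 0 := by
      rintro rfl
      rw [ho.zero] at hob
      exact lt_irrefl _ hob
    have h4 : b = (x - algebraMap k E a) * (c : E) := by
      have := congrArg (Subtype.val) hc2
      rw [← hw]
      exact this
    have hc0 : (c : E) ≠ 0 := by
      intro h5
      rw [h5, mul_zero] at h4
      exact hb0 h4
    rw [h4, ho'.mul _ _ hx0 hc0]
    have := hc'.nn (c : E) c.2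
    omega

end Pool.Agent.H60.UNT
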