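import Pool.Agent.H62.UN.Targets

set_option autoImplicit false

namespace Pool.Agent.H60.UNT

open Polynomial Pool.Agent.H17.UN Pool.Agent.H62.UN

theorem pf_NOE : T_NOE := by
  intro k E _ _ _ x y z h
  constructor
  · have h1 : (cr k x y z).FG := by
      refine ⟨({x, y, z} : Set E).toFinite.toFinset, ?_⟩
      simp
    exact Algebra.FiniteType.isNoetherianRing k (cr k x y z) (h := (Subalgebra.fg_iff_finiteType _).1 h1)
  · intro e
    have he : e ∈ IntermediateField.adjoin k {x, y, z} := by rw [h]; trivial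
    obtain ⟨a, ha, b, hb, hab⟩ := IntermediateField.mem_adjoin_iff_div.1 he
    by_cases hb0 : b = 0
    · refine ⟨0, zero_mem _, 1, one_mem _, one_ne_zero, ?_⟩
      rw [hab, hb0]; simp
    · exact ⟨a, ha, b, hb, hb0, hab⟩

end Pool.Agent.H60.UNT
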