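import Pool.Agent.H62.UN.Targets

set_option autoImplicit false

namespace Pool.Agent.H60.UNT

open Polynomial Pool.Agent.H17.UN Pool.Agent.H62.UN

section

variable {k B : Type} [Field k] [CommRing B] [Algebra k B] (P Q : k[X])

/-- The homomorphism from the chart ring given by a point. -/
noncomputable def pt (x y z : B) (h : y ^ 2 = aeval x P + aeval x Q * z ^ 2) : CR P Q →ₐ[k] B :=
  AdjoinRoot.liftAlgHom _ (aevalAeval x z : k[X][X] →ₐ[k] B) y (by
    rw [eval₂_sub, eval₂_pow, eval₂_X, eval₂_C, dp, h]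
    simp)

theorem pt_x (x y z : B) (h : y ^ 2 = aeval x P + aeval x Q * z ^ 2) :
    pt P Q x y z h (xC P Q) = x := by
  simp [pt, xC]

theorem pt_y (x y z : B) (h : y ^ 2 = aeval x P + aeval x Q * z ^ 2) :
    pt P Q x y z h (yC P Q) = y := by
  simp [pt, yC]

theorem pt_z (x y z : B) (h : y ^ 2 = aeval x P + aeval x Q * z ^ 2) :
    pt P Q x y z h (zC P Q) = z := by
  simp [pt, zC]

theorem hom_ext {f g : CR P Q →ₐ[k] B} (h1 : f (xC P Q) = g (xC P Q))
    (h2 : f (yC P Q) = g (yC P Q)) (h3 : f (zC P Q) = g (zC P Q)) : f = g := by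
  apply AdjoinRoot.algHom_ext' _ h2
  apply AlgHom.coe_ringHom_injective
  apply Polynomial.ringHom_ext'
  · apply Polynomial.ringHom_ext'
    · ext a
      exact (f.commutes a).trans (g.commutes a).symm
    · exact h1
  · exact h3

theorem cr_eq : yC P Q ^ 2 = aeval (xC P Q) P + aeval (xC P Q) Q * zC P Q ^ 2 := by
  have h := AdjoinRoot.eval₂_root (X ^ 2 - C (dp P Q) : k[X][X][X])
  rw [eval₂_sub, eval₂_pow, eval₂_X, eval₂_C, sub_eq_zero] at h
  have h4 : ∀ R : k[X], AdjoinRoot.of (X ^ 2 - C (dp P Q) : k[X][X][X]) (C R) =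
      aeval (xC P Q) R := by
    intro R
    have : ((AdjoinRoot.of (X ^ 2 - C (dp P Q) : k[X][X][X])).comp C : k[X] →+* CR P Q) =
        (aeval (xC P Q) : k[X] →ₐ[k] CR P Q).toRingHom := by
      apply Polynomial.ringHom_ext'
      · ext a
        simp
        rfl
      · simp [xC]
    exact congrArg (fun f : k[X] →+* CR P Q => f R) this
  have h5 : AdjoinRoot.of (X ^ 2 - C (dp P Q) : k[X][X][X]) (dp P Q) =
      AdjoinRoot.of (X ^ 2 - C (dp P Q) : k[X][X][X]) (C P) +
      AdjoinRoot.of (X ^ 2 - C (dp P Q) : k[X][X][X]) (C Q) *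
      AdjoinRoot.of (X ^ 2 - C (dp P Q) : k[X][X][X]) X ^ 2 := by
    rw [← map_pow, ← map_mul, ← map_add]; rfl
  rw [h5, h4, h4] at h
  exact h

end

theorem pf_SMC : T_SMC := by
  intro k _ _ P Q hs
  have hfp : Algebra.FinitePresentation k (CR P Q) := by
    haveI : Algebra.FinitePresentation k k[X][X] :=
      Algebra.FinitePresentation.trans k k[X] k[X][X]
    infer_instance
  have hfs : Algebra.FormallySmooth k (CR P Q) := by
    refine Algebra.FormallySmooth.of_comp_surjective ?_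
    intro B _ _ I hI g
    have hsur : Function.Surjective (Ideal.Quotient.mkₐ k I) := Ideal.Quotient.mkₐ_surjective k I
    obtain ⟨x, hx⟩ := hsur (g (xC P Q))
    obtain ⟨y, hy⟩ := hsur (g (yC P Q))
    obtain ⟨z, hz⟩ := hsur (g (zC P Q))
    have hmk : ∀ b : B, Ideal.Quotient.mkₐ k I b = 0 ↔ b ∈ I := fun b => by
      rw [Ideal.Quotient.mkₐ_eq_mk, Ideal.Quotient.eq_zero_iff_mem]
    obtain ⟨ε, hε⟩ : ∃ ε, ε = y ^ 2 - aeval x P - aeval x Q * z ^ 2 := ⟨_, rfl⟩
    have hεI : ε ∈ I := by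
      rw [← hmk, hε]
      simp only [map_sub, map_mul, map_pow, hy, hz, ← aeval_algHom_apply, hx]
      rw [aeval_algHom_apply g (xC P Q) P, aeval_algHom_apply g (xC P Q) Q, ← map_pow, cr_eq]
      simp only [map_add, map_mul, map_pow]
      ring
    have hε2 : ε * ε = 0 := by
      have : ε * ε ∈ I ^ 2 := by rw [pow_two]; exact Ideal.mul_mem_mul hεI hεI
      rw [hI] at this
      simpa using this
    obtain ⟨A, C', hAC⟩ := hs
    have hAC2 := congrArg (aeval x) hAC
    rw [derivative_mul] at hAC2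
    simp only [map_add, map_mul, map_one] at hAC2
    obtain ⟨t, ht⟩ : ∃ t : B, 2 * t = 1 := by
      refine ⟨algebraMap k B (1 / 2), ?_⟩
      have : (2 : B) = algebraMap k B 2 := (map_ofNat (algebraMap k B) 2).symm
      rw [this, ← map_mul]
      simp
    generalize ha : aeval x A = a at hAC2
    generalize hb : aeval x C' = b at hAC2
    generalize hp : aeval x P = p at hAC2 hε
    generalize hq : aeval x Q = q at hAC2 hε
    generalize hp' : aeval x (derivative P) = p' at hAC2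
    generalize hq' : aeval x (derivative Q) = q' at hAC2
    have hd : (b * q * ε) ^ 2 = 0 := by
      rw [mul_pow, pow_two ε, hε2, mul_zero]
    have hkey : (y + -((a * q + b * q') * y * t) * ε) ^ 2 = aeval (x + b * q * ε) P +
        aeval (x + b * q * ε) Q *
          (z + -(((a * q + b * q') * z + b * q' * z) * t) * ε) ^ 2 := by
      rw [aeval_add_of_sq_eq_zero P _ _ hd, aeval_add_of_sq_eq_zero Q _ _ hd, hp, hq, hp', hq']
      obtain ⟨u, hu⟩ : ∃ u, u = a * q + b * q' := ⟨_, rfl⟩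
      obtain ⟨v, hv⟩ : ∃ v, v = u * z + b * q' * z := ⟨_, rfl⟩
      rw [← hu, ← hv]
      linear_combination (-1 + u * ε) * hε - ε * hAC2 - ε * (u * y ^ 2 - q * v * z) * ht +
        (-u + (u ^ 2 * y ^ 2 * t ^ 2 - q * v ^ 2 * t ^ 2 + 2 * t * q' * b * q * v * z) -
          ε * q' * b * q * v ^ 2 * t ^ 2) * hε2 + ε * q * z * hv - ε * p * hu
    refine ⟨pt P Q _ _ _ hkey, ?_⟩
    apply hom_ext
    · rw [AlgHom.comp_apply, pt_x, map_add, hx, (hmk (b * q * ε)).2 (I.mul_mem_left _ hεI),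
        add_zero]
    · rw [AlgHom.comp_apply, pt_y, map_add, hy, (hmk _).2 (I.mul_mem_left _ hεI), add_zero]
    · rw [AlgHom.comp_apply, pt_z, map_add, hz, (hmk _).2 (I.mul_mem_left _ hεI), add_zero]
  exact ⟨hfs, hfp⟩

end Pool.Agent.H60.UNT
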