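import Pool.Agent.H62.UN.Targets

set_option autoImplicit false

namespace Pool.Agent.H60.UNT

open Polynomial Pool.Agent.H17.UN Pool.Agent.H62.UN

theorem coeff_X_mul_der {k : Type} [Field k] (F : k[X]) (j : ℕ) :
    (X * derivative F).coeff j = j * F.coeff j := by
  cases j with
  | zero => simp
  | succ j => rw [coeff_X_mul, coeff_derivative]; push_cast; ring

theorem srf_id {k : Type} [Field k] (F : k[X]) (hF : F.natDegree ≤ 5) :
    X * derivative (reflect 6 F) = 6 * reflect 6 F - reflect 6 (X * derivative F) := by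
  ext n
  rw [coeff_X_mul_der, coeff_sub]
  have h6 : (6 * reflect 6 F).coeff n = 6 * (reflect 6 F).coeff n := by
    have h : (6 : k[X]) = C 6 := (map_ofNat C 6).symm
    rw [h, coeff_C_mul]
  rw [h6, coeff_reflect, coeff_reflect, coeff_X_mul_der]
  by_cases hn : n ≤ 6
  · rw [revAt_le hn]
    have : ((6 - n : ℕ) : k) = 6 - n := by
      rw [Nat.cast_sub hn]; norm_num
    rw [this]; ring
  · have h1 : revAt 6 n = n := by
      simp only [revAt, revAtFun, Function.Embedding.coeFn_mk, if_neg hn]
    rw [h1, coeff_eq_zero_of_natDegree_lt (by omega)]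
    ring

theorem pf_SRF : T_SRF := by
  intro k _ _ P Q hP hQ hs
  have hP0 : P ≠ 0 := by rintro rfl; simp at hP
  have hQ0 : Q ≠ 0 := by rintro rfl; simp at hQ
  set F := P * Q with hF
  have hF0 : F ≠ 0 := mul_ne_zero hP0 hQ0
  have hd : F.natDegree = 5 := by rw [hF, natDegree_mul hP0 hQ0, hP, hQ]
  have hR : P.reflect 4 * Q.reflect 2 = reflect 6 F := by
    rw [hF, show (6 : ℕ) = 4 + 2 from rfl, reflect_mul P Q (by omega) (by omega)]
  rw [hR]
  unfold Separable
  rw [isCoprime_iff_aeval_ne_zero_of_isAlgClosed k (AlgebraicClosure k)]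
  intro w
  by_contra hw
  push Not at hw
  obtain ⟨h1, h2⟩ := hw
  by_cases hw0 : w = 0
  · subst hw0
    have h3 : (derivative (reflect 6 F)).coeff 0 = 0 := by
      have h4 : algebraMap k (AlgebraicClosure k) ((derivative (reflect 6 F)).coeff 0) = 0 := by
        rw [← h2, aeval_def, eval₂_at_zero]
      exact (map_eq_zero _).1 h4
    rw [coeff_derivative, coeff_reflect, revAt_le (by norm_num)] at h3
    simp only [Nat.cast_zero, zero_add, mul_one] at h3
    have h5 : F.coeff 5 ≠ 0 := by
      rw [← hd]; exact leadingCoeff_ne_zero.2 hF0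
    exact h5 h3
  · have h3 : aeval w (reflect 6 (X * derivative F)) = 0 := by
      have h4 := congrArg (aeval w) (srf_id F hd.le)
      simp only [map_mul, map_sub, h1, h2, mul_zero, zero_sub] at h4
      exact neg_eq_zero.1 h4.symm
    letI : Invertible (w⁻¹) := invertibleOfNonzero (inv_ne_zero hw0)
    have h5 : ⅟(w⁻¹) = w := by rw [invOf_eq_inv, inv_inv]
    have h6 := eval₂_reflect_mul_pow (algebraMap k (AlgebraicClosure k)) (w⁻¹) 6 F (by omega)
    have hXd : (X * derivative F).natDegree ≤ 6 := by
      refine natDegree_mul_le.trans ?_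
      have := natDegree_derivative_le F
      rw [natDegree_X]; omega
    have h7 := eval₂_reflect_mul_pow (algebraMap k (AlgebraicClosure k)) (w⁻¹) 6
      (X * derivative F) hXd
    rw [h5] at h6 h7
    rw [← aeval_def, h1, zero_mul, ← aeval_def] at h6
    rw [← aeval_def, h3, zero_mul, ← aeval_def, map_mul, aeval_X] at h7
    have h8 : aeval w⁻¹ (derivative F) = 0 := by
      rcases mul_eq_zero.1 h7.symm with h | h
      · exact absurd h (inv_ne_zero hw0)
      · exact h
    have h9 := (isCoprime_iff_aeval_ne_zero_of_isAlgClosed k (AlgebraicClosure k) _ _).1 hs w⁻¹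
    rcases h9 with h | h
    · exact h h6.symm
    · exact h h8

end Pool.Agent.H60.UNT
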