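import Pool.Agent.H62.UN.Targets
import Pool.Agent.H60.UNT.SPR

set_option autoImplicit false

namespace Pool.Agent.H60.UNT

open Polynomial Pool.Agent.H17.UN Pool.Agent.H62.UN

theorem z_ne {k F : Type} [Field k] [Field F] [Algebra k F] {s z : F}
    (h : AlgebraicIndependent k ![s, z]) : z ≠ 0 := by
  have := h.ne_zero (1 : Fin 2)
  simpa using this

theorem sep_eval {k : Type} [Field k] {P Q : k[X]} (h : (P * Q).Separable) (a : k)
    (h1 : P.eval a = 0) (h2 : Q.eval a = 0) : False := by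
  obtain ⟨u, v, huv⟩ := h.isCoprime
  have := congrArg (Polynomial.eval a) huv
  simp [h1, h2] at this

theorem pf_VEX : F_VEX := by
  intro hCHT hLVD k F _ _ _ _ _ P Q s y z h
  obtain ⟨c0, -, c2, -⟩ := hCHT k F P Q s y z h
  constructor
  · intro a ρ hρ
    rcases hρ with ⟨hq, hp⟩ | ⟨hp, hq⟩
    · have hρ0 : ρ ≠ 0 := by
        rintro rfl
        exact sep_eval h.sep a (by rw [← hp]; simp) hq
      obtain ⟨o, ho, hc, h1, -, h2, -⟩ := hLVD k F P Q s y z c0 a (C ρ) (by simpa using hρ0) (by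
        rw [hq, ← hp, ← C_pow]; simp)
      refine ⟨toPD o ho 0 hc, h1, Or.inl ⟨hq, hp, ?_⟩⟩
      change 0 < o (y - algebraMap k F ρ)
      simpa using h2
    · have hρ0 : ρ ≠ 0 := by
        rintro rfl
        exact sep_eval h.sep a hp (by rw [← hq]; simp)
      obtain ⟨o, ho, hc, h1, -, h2, -⟩ := hLVD k F P Q s y z c0 a (C ρ * X)
        (mul_ne_zero (by simpa using hρ0) X_ne_zero) (by
        rw [hp, ← hq, mul_pow, ← C_pow]; simp)
      refine ⟨toPD o ho 0 hc, h1, Or.inr ⟨hp, hq, ?_⟩⟩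
      change 0 < o (y - algebraMap k F ρ * z)
      simpa using h2
  · intro ρ hρ
    have hQ0 : Q ≠ 0 := by
      rintro rfl
      have := h.dQ
      simp at this
    have hρ0 : ρ ≠ 0 := by
      rintro rfl
      have : Q.leadingCoeff = 0 := by rw [← hρ]; simp
      exact hQ0 (leadingCoeff_eq_zero.1 this)
    have e1 : (P.reflect 4).eval 0 = 0 := by
      rw [← coeff_zero_eq_eval_zero, coeff_reflect, revAt_le (by norm_num)]
      exact coeff_eq_zero_of_natDegree_lt (by rw [h.dP]; norm_num)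
    have e2 : (Q.reflect 2).eval 0 = Q.leadingCoeff := by
      rw [← coeff_zero_eq_eval_zero, coeff_reflect, revAt_le (by norm_num), leadingCoeff, h.dQ]
    obtain ⟨o, ho, hc, h1, h0, h2, -⟩ := hLVD k F _ _ _ _ _ c2 0 (C ρ * X)
      (mul_ne_zero (by simpa using hρ0) X_ne_zero) (by
      rw [e1, e2, ← hρ, mul_pow, ← C_pow]; simp)
    have hz : z ≠ 0 := z_ne h.ind
    have hs : s ≠ 0 := by
      rintro rfl
      simp [ho.zero] at h1
    have h3 : o s = -1 := by
      rw [map_zero, sub_zero, v_inv ho s hs] at h1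
      omega
    refine ⟨toPD o ho 2 hc, h3, hρ, ?_⟩
    have h4 : aeval (z / s) (C ρ * X) = algebraMap k F ρ * (z / s) := by simp
    rw [h4] at h2
    have h5 : y / s ^ 2 - algebraMap k F ρ * (z / s) ≠ 0 := by
      intro h6
      rw [h6, ho.zero] at h2
      exact lt_irrefl _ h2
    have h6 : y / (s * z) - algebraMap k F ρ =
        (y / s ^ 2 - algebraMap k F ρ * (z / s)) / (z / s) := by
      field_simp
    change 0 < o (y / (s * z) - algebraMap k F ρ)
    rw [h6, v_div ho _ _ h5 (div_ne_zero hz hs), h0]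
    omega

end Pool.Agent.H60.UNT
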